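import Pool.Agent.R598.FM.TreeD

set_option autoImplicit false

namespace Pool.Agent.Results.MP_fb2f7f_lc.StrongWithoutDyadic

open Pool.Agent.R598.FM

/-- There is a transitive model of ZFA in which every infinite set is strongly filterbase
infinite, but some infinite set is not dyadically filterbase infinite. -/
theorem result : ∃ (A : Type) (N : Set (U A)), IsZFA N ∧ ISFBI N ∧ ¬ IDFBI N := Tr.main

end Pool.Agent.Results.MP_fb2f7f_lc.StrongWithoutDyadic
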